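import Pool.Agent.V7H65.SA.Fixed

/-!
# Bounds for the number of fixed points
-/

set_option autoImplicit false
set_option linter.unusedSectionVars false

namespace Pool.Agent.V7H65.SA

open Pool.Agent.V7H65.SD

/-- The last divisibility condition but one. -/
theorem second_dvd {V : Type} [Finite V] {t k : ℕ} {𝓑 : Set (Set V)} (h : IsSteiner (t + 2) k 𝓑)
    (ht : t ≤ Nat.card V) :
    (k - t) * (k - t - 1) ∣ (Nat.card V - t) * (Nat.card V - t - 1) := by
  classical
  have hoff : ∀ S : Set V, ({q : V × V | q.1 ∈ S ∧ q.2 ∈ S ∧ q.1 ≠ q.2}).ncard =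
      S.ncard * (S.ncard - 1) := by
    intro S
    have := Fintype.ofFinite V
    have h1 : {q : V × V | q.1 ∈ S ∧ q.2 ∈ S ∧ q.1 ≠ q.2} = ((S.toFinset.offDiag : Finset (V × V)) :
        Set (V × V)) := by
      ext q
      simp
    rw [h1, Set.ncard_coe_finset, Finset.offDiag_card, Set.ncard_eq_toFinset_card', Nat.mul_sub,
      mul_one]
  obtain ⟨T0, hT0⟩ := exists_sub ht
  have h1 : ((Set.univ : Set V) \ T0).ncard = Nat.card V - t := by
    rw [Set.ncard_sdiff (Set.subset_univ _), Set.ncard_univ, hT0]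
  rw [← h1, ← hoff]
  refine dvd_of_classes (𝓒 := {C | ∃ B ∈ 𝓑, T0 ⊆ B ∧
    C = {q : V × V | q.1 ∈ B \ T0 ∧ q.2 ∈ B \ T0 ∧ q.1 ≠ q.2}}) ?_ ?_ ?_ ?_
  · rintro _ ⟨B, -, -, rfl⟩ q hq
    exact ⟨⟨Set.mem_univ _, hq.1.2⟩, ⟨Set.mem_univ _, hq.2.1.2⟩, hq.2.2⟩
  · rintro _ ⟨B, hB, hTB, rfl⟩
    rw [hoff, Set.ncard_sdiff hTB, h.1 B hB, hT0]
  · rintro ⟨x, y⟩ ⟨⟨-, hx⟩, ⟨-, hy⟩, hxy⟩
    simp only at hx hy hxy
    obtain ⟨B, ⟨hB, hB'⟩, -⟩ := h.2 (insert x (insert y T0)) (by
      rw [Set.ncard_insert_of_notMem, Set.ncard_insert_of_notMem hy, hT0]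
      simp only [Set.mem_insert_iff, not_or]
      exact ⟨hxy, hx⟩)
    refine ⟨_, ⟨B, hB, ?_, rfl⟩, ⟨hB' (Set.mem_insert x _), hx⟩, ⟨hB' ?_, hy⟩, hxy⟩
    · exact ((Set.subset_insert y T0).trans (Set.subset_insert x _)).trans hB'
    · exact Set.mem_insert_of_mem _ (Set.mem_insert y _)
  · rintro _ ⟨B, hB, hTB, rfl⟩ _ ⟨B', hB', hTB', rfl⟩ ⟨x, y⟩ hq hq'
    have : B = B' := by
      refine h.eq_of hB hB' (T := insert x (insert y T0)) ?_ ?_ ?_
      · exact Set.insert_subset hq.1.1 (Set.insert_subset hq.2.1.1 hTB)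
      · exact Set.insert_subset hq'.1.1 (Set.insert_subset hq'.2.1.1 hTB')
      · rw [Set.ncard_insert_of_notMem, Set.ncard_insert_of_notMem hq.2.1.2, hT0]
        simp only [Set.mem_insert_iff, not_or]
        exact ⟨hq.2.2, hq.1.2⟩
    rw [this]

variable {V : Type} [Finite V] {σ : Equiv.Perm V} {p t k : ℕ} {𝓑 : Set (Set V)}

/-- The fixed systems exist. -/
theorem fixed_exists (h : IsSteiner t k 𝓑) (hσB : ∀ B ∈ 𝓑, σ '' B ∈ 𝓑) (hσ : σ ^ p = 1)
    (hp : p.Prime) (htk : t ≤ k) (hkp : k < t + p) {a b : ℕ} (hab : p * a + b = t)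
    (ha : p * a ≤ (moved σ).ncard) : ∃ 𝓓 : Set (Set (fixd σ)), IsSteiner b (b + (k - t)) 𝓓 := by
  obtain ⟨O, hO, hOc, hOm⟩ := exists_closed hσ hp a ha
  exact ⟨_, fixed_system h hσB hσ hp htk hkp hOc hOm (by rw [hO, hab])⟩

theorem fixed_dvd (h : IsSteiner t k 𝓑) (hσB : ∀ B ∈ 𝓑, σ '' B ∈ 𝓑) (hσ : σ ^ p = 1)
    (hp : p.Prime) (htk : t ≤ k) (hkp : k < t + p) {a b : ℕ} (hab : p * a + (b + 1) = t)
    (ha : p * a ≤ (moved σ).ncard) (hb : b ≤ (fixd σ).ncard) :
    k - t + 1 ∣ (fixd σ).ncard - b := by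
  obtain ⟨𝓓, h𝓓⟩ := fixed_exists h hσB hσ hp htk hkp hab ha
  have h1 := last_dvd h𝓓 (by rw [card_fixd]; exact hb)
  rw [card_fixd] at h1
  rwa [show b + 1 + (k - t) - b = k - t + 1 by omega] at h1

theorem fixed_dvd2 (h : IsSteiner t k 𝓑) (hσB : ∀ B ∈ 𝓑, σ '' B ∈ 𝓑) (hσ : σ ^ p = 1)
    (hp : p.Prime) (htk : t ≤ k) (hkp : k < t + p) {a b : ℕ} (hab : p * a + (b + 2) = t)
    (ha : p * a ≤ (moved σ).ncard) (hb : b ≤ (fixd σ).ncard) :
    (k - t + 2) * (k - t + 1) ∣ ((fixd σ).ncard - b) * ((fixd σ).ncard - b - 1) := by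
  obtain ⟨𝓓, h𝓓⟩ := fixed_exists h hσB hσ hp htk hkp hab ha
  have h1 := second_dvd h𝓓 (by rw [card_fixd]; exact hb)
  rw [card_fixd] at h1
  rwa [show b + 2 + (k - t) - b = k - t + 2 by omega, show k - t + 2 - 1 = k - t + 1 by omega] at h1

/-- A nontrivial permutation of prime order moves at least `p` points. -/
theorem le_moved (hσ : σ ^ p = 1) (hp : p.Prime) (hne : σ ≠ 1) : p ≤ (moved σ).ncard := by
  obtain ⟨x, hx⟩ : ∃ x, x ∈ moved σ := by
    by_contra hc
    push Not at hc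
    refine hne (Equiv.ext fun x => ?_)
    have := hc x
    simpa [moved] using this
  rw [← orb_card hσ hp hx]
  exact Set.ncard_le_ncard (orb_sub_moved hx) (Set.toFinite _)

/-- If at least `t` points are fixed and `p = k - t + 1`, then at least `2 p` points are moved. -/
theorem two_le_moved (h : IsSteiner t k 𝓑) (hσB : ∀ B ∈ 𝓑, σ '' B ∈ 𝓑) (hσ : σ ^ p = 1)
    (hp : p.Prime) (hne : σ ≠ 1) (ht : 2 ≤ t) (hkp : k + 1 = t + p)
    (hf : t ≤ (fixd σ).ncard) : 2 * p ≤ (moved σ).ncard := by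
  by_contra hc
  have h1 := le_moved hσ hp hne
  have h2 : p ∣ (moved σ).ncard :=
    dvd_card_closed hσ hp (fun z hz => moved_closed hz) Set.Subset.rfl
  have h3 : (moved σ).ncard = p := by
    obtain ⟨a, ha⟩ := h2
    rw [ha] at h1 hc ⊢
    have hpos := hp.pos
    have h4 : a < 2 := by
      by_contra h5
      have : p * 2 ≤ p * a := Nat.mul_le_mul_left _ (by omega)
      omega
    have h5 : a ≠ 0 := by
      rintro rfl
      omega
    rw [show a = 1 by omega, mul_one]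
  obtain ⟨x, hx⟩ : (moved σ).Nonempty := by
    rw [← Set.ncard_pos, h3]
    exact hp.pos
  obtain ⟨F, hFf, hF⟩ := exists_sub_card (T := fixd σ) (n := t - 2) (by omega)
  have hfree : ∀ z ∈ fixd σ, z ∉ F → ∃ B ∈ 𝓑, F ⊆ B ∧ z ∈ B ∧ moved σ ⊆ B := by
    intro z hz hzF
    have hxF : x ∉ insert z F := by
      rintro (h4 | h4)
      · exact hx (h4 ▸ hz)
      · exact hx (hFf h4)
    obtain ⟨B, ⟨hB, hTB⟩, -⟩ := h.2 (insert x (insert z F)) (by
      rw [Set.ncard_insert_of_notMem hxF, Set.ncard_insert_of_notMem hzF, hF]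
      omega)
    refine ⟨B, hB, ?_, hTB (Set.mem_insert_of_mem _ (Set.mem_insert z _)), ?_⟩
    · exact ((Set.subset_insert z F).trans (Set.subset_insert x _)).trans hTB
    · have hxB : x ∈ B := hTB (Set.mem_insert x _)
      -- fewer than `t` fixed points in `B`
      have h4 : (B ∩ fixd σ).ncard < t := by
        by_contra h5
        have h6 : t ≤ (B ∩ fixd σ).ncard := by omega
        have h7 := block_closed h hσB hB (T := B ∩ fixd σ) Set.inter_subset_left (by
          rintro w ⟨hw, hw'⟩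
          have : σ w = w := hw'
          rw [this]
          exact ⟨hw, hw'⟩) h6
        have h8 := block_moved h hσ hp (by omega) (O := ∅) (by simp) (by simp) hB h7 (by simp)
          (T := B ∩ fixd σ) Set.inter_subset_left Set.inter_subset_right (by simpa using h6)
        have h9 : x ∈ B ∩ moved σ := ⟨hxB, hx⟩
        rw [h8] at h9
        exact h9
      have h5 := ncard_split B σ
      rw [h.1 B hB] at h5
      have h6 : (moved σ).ncard ≤ (B ∩ moved σ).ncard := by omega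
      have h7 : B ∩ moved σ = moved σ :=
        Set.eq_of_subset_of_ncard_le Set.inter_subset_right h6 (Set.toFinite _)
      exact Set.inter_eq_right.1 h7
  obtain ⟨z, hz, hzF⟩ : ∃ z ∈ fixd σ, z ∉ F :=
    Set.exists_mem_notMem_of_ncard_lt_ncard (by omega) (Set.toFinite _)
  obtain ⟨z', hz', hz'F⟩ : ∃ z' ∈ fixd σ, z' ∉ insert z F := by
    refine Set.exists_mem_notMem_of_ncard_lt_ncard ?_ (Set.toFinite _)
    rw [Set.ncard_insert_of_notMem hzF, hF]
    omega
  have hz'F' : z' ∉ F := fun h4 => hz'F (Set.mem_insert_of_mem _ h4)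
  have hzz' : z' ≠ z := fun h4 => hz'F (h4 ▸ Set.mem_insert z F)
  obtain ⟨B, hB, hFB, hzB, hMB⟩ := hfree z hz hzF
  obtain ⟨B', hB', hFB', hzB', hMB'⟩ := hfree z' hz' hz'F'
  have heq : B = B' := by
    refine h.eq_of hB hB' (T := F ∪ moved σ) (Set.union_subset hFB hMB)
      (Set.union_subset hFB' hMB') ?_
    rw [Set.ncard_union_eq ?_ (Set.toFinite _) (Set.toFinite _), hF, h3]
    · have := hp.two_le
      omega
    · rw [Set.disjoint_left]
      intro w hw hw'
      exact hw' (hFf hw)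
  subst heq
  have h4 : t ≤ (insert z' (insert z F)).ncard := by
    rw [Set.ncard_insert_of_notMem hz'F, Set.ncard_insert_of_notMem hzF, hF]
    omega
  have h7 := block_closed h hσB hB (T := insert z' (insert z F)) (by
      exact Set.insert_subset hzB' (Set.insert_subset hzB hFB)) (by
      intro w hw
      have : σ w = w := by
        rcases hw with rfl | rfl | hw
        · exact hz'
        · exact hz
        · exact hFf hw
      rw [this]
      exact hw) h4
  have h8 := block_moved h hσ hp (by omega) (O := ∅) (by simp) (by simp) hB h7 (by simp)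
    (T := insert z' (insert z F)) (Set.insert_subset hzB' (Set.insert_subset hzB hFB)) (by
      exact Set.insert_subset hz' (Set.insert_subset hz hFf)) (by simpa using h4)
  have h9 : x ∈ B ∩ moved σ := ⟨hMB hx, hx⟩
  rw [h8] at h9
  exact h9

end Pool.Agent.V7H65.SA
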