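import Pool.Agent.V7H65.SA.Bound

/-!
# Automorphisms of prime order have few fixed points
-/

set_option autoImplicit false
set_option linter.unusedSectionVars false

namespace Pool.Agent.V7H65.SA

open Pool.Agent.V7H65.SD

variable {V : Type} [Finite V] {σ : Equiv.Perm V} {p t k : ℕ} {𝓑 : Set (Set V)}

/-- The first case. -/
theorem few_fixed (h : IsSteiner t k 𝓑) (hσB : ∀ B ∈ 𝓑, σ '' B ∈ 𝓑) (hσ : σ ^ p = 1)
    (hne : σ ≠ 1) (hp : p.Prime) (htk : t < k) (hkn : k < Nat.card V) (hkp : k - t + 1 < p)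
    (hpt : p < t) : (fixd σ).ncard + 1 ≤ (t - 1) % p + p := by
  have hm := le_moved hσ hp hne
  have hfm := fixd_add_moved σ
  have hn := two_mul_lt h htk hkn
  have hno : ¬ k - t + 1 ∣ p := by
    intro hd
    rcases (Nat.dvd_prime hp).1 hd with h1 | h1 <;> omega
  have hp2 := hp.two_le
  -- fewer than `t - 1` fixed points
  have h1 : (fixd σ).ncard + 1 < t := by
    by_contra hc
    have h2 := fixed_dvd h hσB hσ hp htk.le (by omega) (a := 0) (b := t - 1) (by omega)
      (by omega) (by omega)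
    have h3 := fixed_dvd h hσB hσ hp htk.le (by omega) (a := 1) (b := t - 1 - p) (by omega)
      (by omega) (by omega)
    refine hno ?_
    have h4 := Nat.dvd_sub h3 h2
    rwa [show (fixd σ).ncard - (t - 1 - p) - ((fixd σ).ncard - (t - 1)) = p by omega] at h4
  by_contra hc
  have h2 : (t - 1) % p < p := Nat.mod_lt _ hp.pos
  have h3 := Nat.div_add_mod (t - 1) p
  have h4 : 1 ≤ (t - 1) / p := Nat.div_pos (by omega) hp.pos
  obtain ⟨a, ha⟩ : ∃ a, (t - 1) / p = a + 1 := ⟨(t - 1) / p - 1, by omega⟩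
  rw [ha] at h3
  have h5 : p * (a + 1) = p * a + p := by ring
  have h6 := fixed_dvd h hσB hσ hp htk.le (by omega) (a := a + 1) (b := (t - 1) % p) (by omega)
    (by omega) (by omega)
  have h7 := fixed_dvd h hσB hσ hp htk.le (by omega) (a := a) (b := (t - 1) % p + p) (by omega)
    (by omega) (by omega)
  refine hno ?_
  have h8 := Nat.dvd_sub h6 h7
  rwa [show (fixd σ).ncard - (t - 1) % p - ((fixd σ).ncard - ((t - 1) % p + p)) = p by
    omega] at h8

theorem three_dvd {p f b : ℕ} (hp : 2 ≤ p) (hf : b + 2 * p + 1 ≤ f) (h0 : p ∣ f - (b + 1))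
    (h1 : (p + 1) * p ∣ (f - b) * (f - b - 1))
    (h2 : (p + 1) * p ∣ (f - (b + p)) * (f - (b + p) - 1))
    (h3 : (p + 1) * p ∣ (f - (b + 2 * p)) * (f - (b + 2 * p) - 1)) : False := by
  obtain ⟨y, hy⟩ := h0
  have hy2 : 2 ≤ y := by
    by_contra hc
    have : p * y ≤ p * 1 := Nat.mul_le_mul_left _ (by omega)
    omega
  obtain ⟨w, rfl⟩ : ∃ w, y = w + 2 := ⟨y - 2, by omega⟩
  have e2 : p * (w + 2) = p * w + 2 * p := by ring
  have e1 : p * (w + 1) = p * w + p := by ring
  have key : ∀ v : ℕ, (p + 1) * p ∣ (p * v + 1) * (p * v) → p + 1 ∣ (p * v + 1) * v := by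
    intro v hv
    refine Nat.dvd_of_mul_dvd_mul_right (k := p) (by omega) ?_
    rwa [show (p * v + 1) * v * p = (p * v + 1) * (p * v) by ring]
  have k2 := key (w + 2) (by
    rwa [show f - b = p * (w + 2) + 1 by omega, Nat.add_sub_cancel] at h1)
  have k1 := key (w + 1) (by
    rwa [show f - (b + p) = p * (w + 1) + 1 by omega, Nat.add_sub_cancel] at h2)
  have k0 := key w (by
    rwa [show f - (b + 2 * p) = p * w + 1 by omega, Nat.add_sub_cancel] at h3)
  have h4 : (p * (w + 2) + 1) * (w + 2) + (p * w + 1) * w =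
      2 * ((p * (w + 1) + 1) * (w + 1)) + 2 * p := by ring
  have h5 : p + 1 ∣ 2 * p := by
    rw [← Nat.dvd_add_right (Dvd.dvd.mul_left k1 2), ← h4]
    exact dvd_add k2 k0
  have h6 : p + 1 ∣ 2 := by
    rw [← Nat.dvd_add_right h5]
    exact ⟨2, by ring⟩
  have := Nat.le_of_dvd (by norm_num) h6
  omega

/-- The second case. -/
theorem few_fixed' (h : IsSteiner t k 𝓑) (hσB : ∀ B ∈ 𝓑, σ '' B ∈ 𝓑) (hσ : σ ^ p = 1)
    (hne : σ ≠ 1) (hp : p.Prime) (htk : t < k) (hkn : k < Nat.card V) (hkp : k + 1 = t + p)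
    (hpt : 2 * p + 2 ≤ t) : (fixd σ).ncard ≤ (t - 2) % p + 1 + p := by
  have hm := le_moved hσ hp hne
  have hfm := fixd_add_moved σ
  have hn := two_mul_lt h htk hkn
  have hp2 := hp.two_le
  have D1 : ∀ a b : ℕ, p * a + (b + 1) = t → p * a ≤ (moved σ).ncard → b ≤ (fixd σ).ncard →
      p ∣ (fixd σ).ncard - b := by
    intro a b h1 h2 h3
    have := fixed_dvd h hσB hσ hp htk.le (by omega) h1 h2 h3
    rwa [show k - t + 1 = p by omega] at this
  have D2 : ∀ a b : ℕ, p * a + (b + 2) = t → p * a ≤ (moved σ).ncard → b ≤ (fixd σ).ncard →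
      (p + 1) * p ∣ ((fixd σ).ncard - b) * ((fixd σ).ncard - b - 1) := by
    intro a b h1 h2 h3
    have := fixed_dvd2 h hσB hσ hp htk.le (by omega) h1 h2 h3
    rwa [show k - t + 2 = p + 1 by omega, show k - t + 1 = p by omega] at this
  -- fewer than `t` fixed points
  have h1 : (fixd σ).ncard < t := by
    by_contra hc
    have hm2 := two_le_moved h hσB hσ hp hne (by omega) hkp (by omega)
    refine three_dvd (p := p) (f := (fixd σ).ncard) (b := t - 2 - 2 * p) hp2 (by omega) ?_ ?_ ?_ ?_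
    · exact D1 2 _ (by omega) (by omega) (by omega)
    · exact D2 2 _ (by omega) (by omega) (by omega)
    · exact D2 1 _ (by omega) (by omega) (by omega)
    · exact D2 0 _ (by omega) (by omega) (by omega)
  have hmt : t ≤ (moved σ).ncard := by omega
  have h2 : (t - 2) % p < p := Nat.mod_lt _ hp.pos
  have h3 := Nat.div_add_mod (t - 2) p
  have h4 : 2 ≤ (t - 2) / p := by
    rw [Nat.le_div_iff_mul_le hp.pos]
    omega
  obtain ⟨a, ha⟩ : ∃ a, (t - 2) / p = a + 2 := ⟨(t - 2) / p - 2, by omega⟩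
  rw [ha] at h3
  have e2 : p * (a + 2) = p * a + 2 * p := by ring
  have e1 : p * (a + 1) = p * a + p := by ring
  by_contra hc
  have h5 : (fixd σ).ncard < (t - 2) % p + 2 + 2 * p := by
    by_contra hc'
    refine three_dvd (p := p) (f := (fixd σ).ncard) (b := (t - 2) % p) hp2 (by omega) ?_ ?_ ?_ ?_
    · exact D1 (a + 2) _ (by omega) (by omega) (by omega)
    · exact D2 (a + 2) _ (by omega) (by omega) (by omega)
    · exact D2 (a + 1) _ (by omega) (by omega) (by omega)
    · exact D2 a _ (by omega) (by omega) (by omega)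
  have h6 := D1 (a + 2) ((t - 2) % p + 1) (by omega) (by omega) (by omega)
  have h7 := D2 (a + 2) ((t - 2) % p) (by omega) (by omega) (by omega)
  obtain ⟨y, hy⟩ := h6
  have hy1 : 1 < y := by
    by_contra hc'
    have : p * y ≤ p * 1 := Nat.mul_le_mul_left _ (by omega)
    omega
  have hy3 : y < 3 := by
    by_contra hc'
    have : p * 3 ≤ p * y := Nat.mul_le_mul_left _ (by omega)
    omega
  have hy2 : y = 2 := by omega
  subst hy2
  rw [show (fixd σ).ncard - (t - 2) % p = 2 * p + 1 by omega, Nat.add_sub_cancel] at h7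
  have h8 : p + 1 ∣ (2 * p + 1) * 2 := by
    refine Nat.dvd_of_mul_dvd_mul_right (k := p) (by omega) ?_
    rwa [show (2 * p + 1) * 2 * p = (2 * p + 1) * (2 * p) by ring]
  have h9 : p + 1 ∣ 2 := by
    rw [← Nat.dvd_add_right h8]
    exact ⟨4, by ring⟩
  have := Nat.le_of_dvd (by norm_num) h9
  omega

end Pool.Agent.V7H65.SA
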