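import Pool.Agent.V7H65.SA.Orbits
import Pool.Agent.V7H65.SD.Count

/-!
# The Steiner systems on the fixed points of an automorphism of prime order
-/

set_option autoImplicit false
set_option linter.unusedSectionVars false

namespace Pool.Agent.V7H65.SA

open Pool.Agent.V7H65.SD

variable {V : Type} [Finite V] {σ : Equiv.Perm V} {p t k : ℕ} {𝓑 : Set (Set V)}

theorem card_fixd (σ : Equiv.Perm V) : Nat.card (fixd σ) = (fixd σ).ncard := rfl

/-- The block through a closed set. -/
theorem block_closed (h : IsSteiner t k 𝓑) (hσB : ∀ B ∈ 𝓑, σ '' B ∈ 𝓑) {B T : Set V}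
    (hB : B ∈ 𝓑) (hTB : T ⊆ B) (hT : ∀ z ∈ T, σ z ∈ T) (hc : t ≤ T.ncard) :
    ∀ z ∈ B, σ z ∈ B := by
  have h1 := h.fix σ.injective hσB hB hTB (by
    rintro _ ⟨z, hz, rfl⟩
    exact hTB (hT z hz)) hc
  intro z hz
  rw [← h1]
  exact ⟨z, hz, rfl⟩

theorem ncard_split (B : Set V) (σ : Equiv.Perm V) :
    (B ∩ fixd σ).ncard + (B ∩ moved σ).ncard = B.ncard := by
  rw [← Set.ncard_inter_add_ncard_sdiff_eq_ncard B (fixd σ)]
  rfl

/-- The block through `t` points, which are closed under `σ` and of which `O` are the moved ones,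
contains no further moved point if `k - t < p`. -/
theorem block_moved (h : IsSteiner t k 𝓑) (hσ : σ ^ p = 1) (hp : p.Prime)
    (hkp : k < t + p) {O : Set V} (hO : ∀ z ∈ O, σ z ∈ O) (hOm : O ⊆ moved σ) {B T : Set V}
    (hB : B ∈ 𝓑) (hBs : ∀ z ∈ B, σ z ∈ B) (hOB : O ⊆ B) (hTB : T ⊆ B) (hTf : T ⊆ fixd σ)
    (hc : t ≤ O.ncard + T.ncard) : B ∩ moved σ = O := by
  have h1 : p ∣ (B ∩ moved σ).ncard :=
    dvd_card_closed hσ hp (fun z hz => ⟨hBs z hz.1, moved_closed hz.2⟩) Set.inter_subset_right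
  have h2 : p ∣ O.ncard := dvd_card_closed hσ hp hO hOm
  have h3 : O ⊆ B ∩ moved σ := Set.subset_inter hOB hOm
  have h4 : O.ncard ≤ (B ∩ moved σ).ncard := Set.ncard_le_ncard h3 (Set.toFinite _)
  have h5 : T.ncard ≤ (B ∩ fixd σ).ncard :=
    Set.ncard_le_ncard (Set.subset_inter hTB hTf) (Set.toFinite _)
  have h6 := ncard_split B σ
  rw [h.1 B hB] at h6
  have h7 : (B ∩ moved σ).ncard < O.ncard + p := by omega
  have h8 : (B ∩ moved σ).ncard = O.ncard := by
    obtain ⟨a, ha⟩ := h1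
    obtain ⟨b, hb⟩ := h2
    rw [ha, hb] at h4 h7 ⊢
    have hpos := hp.pos
    have h9 : b ≤ a := Nat.le_of_mul_le_mul_left h4 hpos
    have h10 : a < b + 1 := by
      have : p * a < p * (b + 1) := by rw [mul_add, mul_one]; exact h7
      exact Nat.lt_of_mul_lt_mul_left this
    rw [show a = b by omega]
  exact (Set.eq_of_subset_of_ncard_le h3 h8.le (Set.toFinite _)).symm

/-- The system on the fixed points. -/
theorem fixed_system (h : IsSteiner t k 𝓑) (hσB : ∀ B ∈ 𝓑, σ '' B ∈ 𝓑) (hσ : σ ^ p = 1)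
    (hp : p.Prime) (htk : t ≤ k) (hkp : k < t + p) {O : Set V} (hO : ∀ z ∈ O, σ z ∈ O)
    (hOm : O ⊆ moved σ) {b : ℕ} (hb : O.ncard + b = t) :
    IsSteiner b (b + (k - t)) {D : Set (fixd σ) | O ∪ Subtype.val '' D ∈ 𝓑} := by
  have hval : ∀ D : Set (fixd σ), (Subtype.val '' D : Set V) ⊆ fixd σ := by
    rintro D _ ⟨z, -, rfl⟩
    exact z.2
  have hcard : ∀ D : Set (fixd σ), (O ∪ Subtype.val '' D).ncard = O.ncard + D.ncard := by
    intro D
    rw [Set.ncard_union_eq ?_ (Set.toFinite _) (Set.toFinite _),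
      Set.ncard_image_of_injective _ Subtype.val_injective]
    rw [Set.disjoint_left]
    intro z hz hz'
    exact hOm hz (hval D hz')
  constructor
  · intro D hD
    have h1 := h.1 _ hD
    rw [hcard] at h1
    omega
  · intro T hT
    obtain ⟨B, ⟨hB, hTB⟩, hu⟩ := h.2 _ (show (O ∪ Subtype.val '' T).ncard = t by
      rw [hcard, hT, hb])
    have hOB : O ⊆ B := Set.subset_union_left.trans hTB
    have hTB' : (Subtype.val '' T : Set V) ⊆ B := Set.subset_union_right.trans hTB
    have hBs := block_closed h hσB hB hTB (by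
      rintro z (hz | hz)
      · exact Or.inl (hO z hz)
      · have : σ z = z := hval T hz
        rw [this]
        exact Or.inr hz) (by rw [hcard, hT, hb])
    have hBm := block_moved h hσ hp hkp hO hOm hB hBs hOB hTB' (hval T) (by
      rw [Set.ncard_image_of_injective _ Subtype.val_injective, hT, hb])
    have hBeq : O ∪ Subtype.val '' ({z : fixd σ | (z : V) ∈ B}) = B := by
      ext z
      constructor
      · rintro (hz | ⟨w, hw, rfl⟩)
        · exact hOB hz
        · exact hw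
      · intro hz
        by_cases hf : σ z = z
        · exact Or.inr ⟨⟨z, hf⟩, hz, rfl⟩
        · left
          rw [← hBm]
          exact ⟨hz, hf⟩
    refine ⟨{z : fixd σ | (z : V) ∈ B}, ⟨?_, ?_⟩, ?_⟩
    · show O ∪ Subtype.val '' _ ∈ 𝓑
      rw [hBeq]
      exact hB
    · intro z hz
      exact hTB' ⟨z, hz, rfl⟩
    · rintro D ⟨hD, hTD⟩
      have h1 := hu _ ⟨hD, Set.union_subset_union_right O (Set.image_mono hTD)⟩
      ext z
      rw [← h1]
      constructor
      · intro hz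
        exact Or.inr ⟨z, hz, rfl⟩
      · rintro (hz | ⟨w, hw, hwz⟩)
        · exact (hOm hz z.2).elim
        · rwa [← Subtype.val_injective hwz]

/-- A weak form of the inequality of Tits. -/
theorem two_mul_lt (h : IsSteiner t k 𝓑) (htk : t < k) (hkn : k < Nat.card V) :
    2 * (t + 1) ≤ Nat.card V := by
  classical
  obtain ⟨T0, hT0⟩ := exists_sub (V := V) (n := t) (by omega)
  obtain ⟨B, ⟨hB, hTB⟩, -⟩ := h.2 T0 hT0
  obtain ⟨x, hx⟩ : ∃ x, x ∉ B := by
    by_contra hc
    push Not at hc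
    have h1 := h.1 B hB
    rw [Set.eq_univ_of_forall hc, Set.ncard_univ] at h1
    omega
  set X : Set V := insert x T0 with hX
  have hXc : X.ncard = t + 1 := by
    rw [hX, Set.ncard_insert_of_notMem (fun h1 => hx (hTB h1)), hT0]
  have hXB : ∀ B' ∈ 𝓑, ¬ X ⊆ B' := by
    intro B' hB' hXB'
    have h1 : B' = B := h.eq_of hB' hB ((Set.subset_insert x T0).trans hXB') hTB hT0.ge
    exact hx (h1 ▸ hXB' (Set.mem_insert x T0))
  -- the blocks through all but one of the points
  have hex : ∀ y ∈ X, ∃ B' ∈ 𝓑, X \ {y} ⊆ B' ∧ ∃ z ∈ B', z ∉ X := by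
    intro y hy
    obtain ⟨B', ⟨hB', hyB'⟩, -⟩ := h.2 (X \ {y}) (by
      rw [Set.ncard_sdiff_singleton_of_mem hy, hXc, Nat.add_sub_cancel])
    refine ⟨B', hB', hyB', ?_⟩
    by_contra hc
    push Not at hc
    have h1 : B' ⊆ X := hc
    have h2 : y ∉ B' := by
      intro hyB
      refine hXB B' hB' ?_
      intro z hz
      by_cases hzy : z = y
      · rw [hzy]; exact hyB
      · exact hyB' ⟨hz, hzy⟩
    have h3 : B' ⊆ X \ {y} := fun z hz => ⟨h1 hz, fun hzy => h2 (hzy ▸ hz)⟩
    have h4 := Set.ncard_le_ncard h3 (Set.toFinite _)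
    rw [h.1 B' hB', Set.ncard_sdiff_singleton_of_mem hy, hXc] at h4
    omega
  choose! b hb1 hb2 c hc1 hc2 using hex
  have hinj : Set.InjOn c X := by
    intro y hy y' hy' hyy'
    by_contra hne
    have h1 : b y = b y' := by
      refine h.eq_of (hb1 y hy) (hb1 y' hy') (T := insert (c y) (X \ {y, y'})) ?_ ?_ ?_
      · refine Set.insert_subset (hc1 y hy) ?_
        intro z hz
        exact hb2 y hy ⟨hz.1, fun h2 => hz.2 (by rw [h2]; simp)⟩
      · refine Set.insert_subset (by rw [hyy']; exact hc1 y' hy') ?_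
        intro z hz
        exact hb2 y' hy' ⟨hz.1, fun h2 => hz.2 (by rw [h2]; simp)⟩
      · rw [Set.ncard_insert_of_notMem (fun h2 => hc2 y hy h2.1), Set.ncard_sdiff, hXc,
          Set.ncard_pair hne]
        · omega
        · rintro z (rfl | rfl) <;> assumption
    refine hXB (b y) (hb1 y hy) ?_
    intro z hz
    by_cases hzy : z = y
    · rw [h1]
      exact hb2 y' hy' ⟨hz, fun h2 => hne (by rw [← hzy]; exact h2)⟩
    · exact hb2 y hy ⟨hz, hzy⟩
  have h2 : (c '' X).ncard = t + 1 := by rw [Set.InjOn.ncard_image hinj, hXc]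
  have h3 : Disjoint X (c '' X) := by
    rw [Set.disjoint_left]
    rintro z hz ⟨y, hy, rfl⟩
    exact hc2 y hy hz
  have h4 : (X ∪ c '' X).ncard ≤ Nat.card V := by
    rw [← Set.ncard_univ]
    exact Set.ncard_le_ncard (Set.subset_univ _) (Set.toFinite _)
  rw [Set.ncard_union_eq h3 (Set.toFinite _) (Set.toFinite _), hXc, h2] at h4
  omega

end Pool.Agent.V7H65.SA
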