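import Pool.Agent.V7H65.SA.Parity

/-!
# Involutions of Steiner systems with odd difference of block size and strength
-/

set_option autoImplicit false
set_option linter.unusedSectionVars false

namespace Pool.Agent.V7H65.SA

open Pool.Agent.V7H65.SD

variable {V : Type} [Finite V] {σ : Equiv.Perm V} {t k : ℕ} {𝓑 : Set (Set V)}

/-- The parity of the number of fixed points. -/
theorem fixd_parity (h : IsSteiner t k 𝓑) (hσ : σ ^ 2 = 1) (ht : 1 ≤ t)
    (hkn : k < Nat.card V) (htk : t < k) (hodd : Odd (k - t)) :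
    (fixd σ).ncard % 2 = (t + 1) % 2 := by
  obtain ⟨r, rfl⟩ : ∃ r, t = r + 1 := ⟨t - 1, by omega⟩
  have h1 := last_dvd h (by omega)
  have h2 : 2 ∣ (moved σ).ncard :=
    dvd_card_closed hσ Nat.prime_two (fun z hz => moved_closed hz) Set.Subset.rfl
  have h3 := fixd_add_moved σ
  rw [Nat.odd_iff] at hodd
  have h4 : 2 ∣ k - r := by omega
  have h5 := h4.trans h1
  omega

theorem invol_dvd (h : IsSteiner t k 𝓑) (hσB : IsAut 𝓑 σ) (hσ : σ ^ 2 = 1)
    (htk : t < k) (hkn : k < Nat.card V) (hodd : Odd (k - t)) (hf : 1 ≤ (fixd σ).ncard)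
    (hft : (fixd σ).ncard < t) : 16 ∣ (Nat.card V - (t - 1)) * (Nat.card V - k) := by
  have h1 := fixd_parity h hσ (by omega) hkn htk hodd
  have h2 := fixd_add_moved σ
  obtain ⟨z, hz⟩ : (fixd σ).Nonempty := by
    rw [← Set.ncard_pos]
    omega
  obtain ⟨O, hO, hOc, hOm⟩ := exists_closed hσ Nat.prime_two ((t - 1 - (fixd σ).ncard) / 2)
    (by omega)
  have hdis : Disjoint O (fixd σ \ {z}) := by
    rw [Set.disjoint_left]
    intro x hx hx'
    exact hOm hx hx'.1
  have hs : Sit t k 𝓑 σ (O ∪ (fixd σ \ {z})) z := by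
    refine ⟨h, hσB, ?_, ?_, ?_, ?_, hz, ?_, hodd, htk⟩
    · intro x
      rw [← Equiv.Perm.mul_apply, ← pow_two, hσ]
      rfl
    · rw [Set.ncard_union_eq hdis (Set.toFinite _) (Set.toFinite _), hO,
        Set.ncard_sdiff_singleton_of_mem hz]
      omega
    · rintro x (hx | ⟨hx, hx'⟩)
      · exact Or.inl (hOc x hx)
      · have h3 : σ x = x := hx
        rw [h3]
        exact Or.inr ⟨hx, hx'⟩
    · rintro (hx | ⟨-, hx⟩)
      · exact hOm hx hz
      · exact hx rfl
    · intro x hx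
      by_cases hxz : x = z
      · exact Or.inr hxz
      · exact Or.inl (Or.inr ⟨hx, hxz⟩)
  exact hs.sixteen_dvd hkn.le

/-- Block size `t + 1`, `t ≥ 6`: involutions have no fixed points in half of the cases. -/
theorem invol_free (h : IsSteiner t (t + 1) 𝓑) (ht : 6 ≤ t) (hkn : t + 1 < Nat.card V)
    (hn : ¬ 16 ∣ (Nat.card V - (t - 1)) * (Nat.card V - (t + 1))) (hσB : IsAut 𝓑 σ)
    (hσ : σ ^ 2 = 1) (hne : σ ≠ 1) : (fixd σ).ncard = 0 := by
  by_contra h1
  have h2 := few_fixed' h hσB hσ hne Nat.prime_two (by omega) hkn (by omega) (by omega)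
  refine hn (invol_dvd h hσB hσ (by omega) hkn ?_ (by omega) (by omega))
  rw [Nat.add_sub_cancel_left]
  exact odd_one

theorem invol_group (h : IsSteiner t (t + 1) 𝓑) (ht : 6 ≤ t) (hkn : t + 1 < Nat.card V)
    (hn : ¬ 16 ∣ (Nat.card V - (t - 1)) * (Nat.card V - (t + 1))) :
    (Even t → ∀ σ : Equiv.Perm V, IsAut 𝓑 σ → orderOf σ ≠ 2) ∧
    ∀ P : Subgroup (Equiv.Perm V), IsPGroup 2 P → (∀ σ ∈ P, IsAut 𝓑 σ) →
      Nat.card P ∣ Nat.card V := by
  constructor
  · intro hte σ hσB hσ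
    have h1 := invol_free h ht hkn hn hσB (pow_of_order hσ) (ne_one_of_order Nat.prime_two hσ)
    have h2 := fixd_parity h (pow_of_order hσ) (by omega) hkn (by omega) (by
      rw [Nat.add_sub_cancel_left]
      exact odd_one)
    rw [Nat.even_iff] at hte
    omega
  · intro P hP hPB
    have h1 := card_dvd_prod Nat.prime_two (F := 0) (Nat.card P) P rfl hP (by
      intro σ hσ hne hσp
      exact (invol_free h ht hkn hn (hPB σ hσ) hσp hne).le) 0 (Nat.zero_le _)
    refine h1.trans ?_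
    have h2 : (Finset.Ico 0 (0 + 1)).filter (fun i => i % 2 = Nat.card V % 2) ⊆ {0} := by
      intro i hi
      simp only [Finset.mem_filter, Finset.mem_Ico] at hi
      simp only [Finset.mem_singleton]
      omega
    refine (Finset.prod_dvd_prod_of_subset _ _ _ h2).trans ?_
    simp

end Pool.Agent.V7H65.SA
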