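import Pool.Agent.V7H65.SA.PGroup

/-!
# The final statements about groups of prime power order
-/

set_option autoImplicit false
set_option linter.unusedSectionVars false

namespace Pool.Agent.V7H65.SA

open Pool.Agent.V7H65.SD

/-- `σ` is an automorphism of `𝓑`: it maps blocks to blocks. -/
def IsAut {V : Type} (𝓑 : Set (Set V)) (σ : Equiv.Perm V) : Prop := ∀ B ∈ 𝓑, σ '' B ∈ 𝓑

variable {V : Type} [Finite V] {σ : Equiv.Perm V} {p t k : ℕ} {𝓑 : Set (Set V)}

theorem ne_one_of_order (hp : p.Prime) (hσ : orderOf σ = p) : σ ≠ 1 := by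
  rintro rfl
  rw [orderOf_one] at hσ
  exact hp.one_lt.ne hσ

theorem pow_of_order (hσ : orderOf σ = p) : σ ^ p = 1 := by
  rw [← hσ, pow_orderOf_eq_one]

theorem first_case (h : IsSteiner t k 𝓑) (hp : p.Prime) (htk : t < k) (hkn : k < Nat.card V)
    (hkp : k - t + 1 < p) (hpt : p < t) :
    (∀ σ : Equiv.Perm V, IsAut 𝓑 σ → orderOf σ = p → {x | σ x = x}.ncard < (t - 1) % p + p) ∧
    ∀ P : Subgroup (Equiv.Perm V), IsPGroup p P → (∀ σ ∈ P, IsAut 𝓑 σ) →
      Nat.card P ∣ ∏ i ∈ (Finset.range ((t - 1) % p + p)).filter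
        (fun i => i % p = Nat.card V % p), (Nat.card V - i) := by
  refine ⟨fun σ hσB hσ => few_fixed h hσB (pow_of_order hσ) (ne_one_of_order hp hσ) hp htk hkn
    hkp hpt, ?_⟩
  intro P hP hPB
  have h1 := card_dvd_prod hp (F := (t - 1) % p + p - 1) (Nat.card P) P rfl hP (by
    intro σ hσ hne hσp
    have := few_fixed h (hPB σ hσ) hσp hne hp htk hkn hkp hpt
    omega) 0 (Nat.zero_le _)
  rwa [Nat.sub_add_cancel (by have := hp.pos; omega), ← Finset.range_eq_Ico] at h1

theorem second_case (h : IsSteiner t k 𝓑) (hp : p.Prime) (htk : t < k) (hkn : k < Nat.card V)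
    (hkp : k - t + 1 = p) (hpt : 2 * p + 2 ≤ t) :
    (∀ σ : Equiv.Perm V, IsAut 𝓑 σ → orderOf σ = p →
      {x | σ x = x}.ncard < (t - 2) % p + p + 2) ∧
    ∀ P : Subgroup (Equiv.Perm V), IsPGroup p P → (∀ σ ∈ P, IsAut 𝓑 σ) →
      Nat.card P ∣ ∏ i ∈ (Finset.range ((t - 2) % p + p + 2)).filter
        (fun i => i % p = Nat.card V % p), (Nat.card V - i) := by
  have key : ∀ σ : Equiv.Perm V, IsAut 𝓑 σ → σ ^ p = 1 → σ ≠ 1 →
      (fixd σ).ncard ≤ (t - 2) % p + 1 + p := fun σ hσB hσ hne =>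
    few_fixed' h hσB hσ hne hp htk hkn (by omega) hpt
  constructor
  · intro σ hσB hσ
    have h1 := key σ hσB (pow_of_order hσ) (ne_one_of_order hp hσ)
    have h2 : {x | σ x = x}.ncard ≤ (t - 2) % p + 1 + p := h1
    omega
  · intro P hP hPB
    have h1 := card_dvd_prod hp (F := (t - 2) % p + p + 1) (Nat.card P) P rfl hP (by
      intro σ hσ hne hσp
      have := key σ (hPB σ hσ) hσp hne
      omega) 0 (Nat.zero_le _)
    rwa [← Finset.range_eq_Ico] at h1

/-- In the first case the order of the group is at most `p n`. -/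
theorem card_le {n c : ℕ} (hp : p.Prime) (hc : c < p) (hn : 2 * p ≤ n) {N e : ℕ}
    (hN : N = p ^ e)
    (hd : N ∣ ∏ i ∈ (Finset.range (c + p)).filter (fun i => i % p = n % p), (n - i)) :
    N ≤ p * n := by
  have hp2 := hp.two_le
  set r := n % p with hr
  have hrp : r < p := Nat.mod_lt _ hp.pos
  have hnr := Nat.div_add_mod n p
  rw [← hr] at hnr
  set m := n / p with hm
  have hm2 : 2 ≤ m := by
    rw [hm, Nat.le_div_iff_mul_le hp.pos]
    omega
  have h1 : (Finset.range (c + p)).filter (fun i => i % p = r) ⊆ {r, r + p} := by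
    intro i hi
    simp only [Finset.mem_filter, Finset.mem_range] at hi
    simp only [Finset.mem_insert, Finset.mem_singleton]
    have h2 := Nat.div_add_mod i p
    have h3 : i / p < 2 := by
      rw [Nat.div_lt_iff_lt_mul hp.pos]
      omega
    interval_cases h4 : i / p
    · left
      omega
    · right
      omega
  have h2 : N ∣ (n - r) * (n - (r + p)) := by
    refine (hd.trans (Finset.prod_dvd_prod_of_subset _ _ _ h1)).trans ?_
    rw [Finset.prod_insert, Finset.prod_singleton]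
    simp only [Finset.mem_singleton]
    omega
  obtain ⟨w, hw⟩ : ∃ w, m = w + 1 := ⟨m - 1, by omega⟩
  have e1 : p * (w + 1) = p * w + p := by ring
  rw [hw] at hnr
  rw [show n - r = p * (w + 1) by omega, show n - (r + p) = p * w by omega] at h2
  have hmax : p * (p * (w + 1)) ≤ p * n := Nat.mul_le_mul_left _ (by omega)
  rw [hN] at h2 ⊢
  by_cases h3 : p ∣ w
  · have h4 : Nat.Coprime (p ^ e) (w + 1) := by
      refine Nat.Coprime.pow_left e ((Nat.Prime.coprime_iff_not_dvd hp).2 fun h5 => ?_)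
      have h6 : p ∣ 1 := by
        have := Nat.dvd_sub h5 h3
        rwa [Nat.add_sub_cancel_left] at this
      exact hp.one_lt.ne' (Nat.dvd_one.1 h6)
    have h5 : p ^ e ∣ p * (p * w) := by
      refine h4.dvd_of_dvd_mul_right (n := w + 1) ?_
      rwa [show p * (p * w) * (w + 1) = p * (w + 1) * (p * w) by ring]
    have h6 : 0 < p * (p * w) := by
      have : 0 < w := by omega
      positivity
    exact (Nat.le_of_dvd h6 h5).trans (le_trans (Nat.mul_le_mul_left _ (by omega)) hmax)
  · have h4 : Nat.Coprime (p ^ e) w :=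
      Nat.Coprime.pow_left e ((Nat.Prime.coprime_iff_not_dvd hp).2 h3)
    have h5 : p ^ e ∣ p * (p * (w + 1)) := by
      refine h4.dvd_of_dvd_mul_right (n := w) ?_
      rwa [show p * (p * (w + 1)) * w = p * (w + 1) * (p * w) by ring]
    exact (Nat.le_of_dvd (by positivity) h5).trans hmax

theorem first_case_le (h : IsSteiner t k 𝓑) (hp : p.Prime) (htk : t < k) (hkn : k < Nat.card V)
    (hkp : k - t + 1 < p) (hpt : p < t) (P : Subgroup (Equiv.Perm V)) (hP : IsPGroup p P)
    (hPB : ∀ σ ∈ P, IsAut 𝓑 σ) : Nat.card P ≤ p * Nat.card V := by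
  have := Fact.mk hp
  obtain ⟨e, he⟩ := IsPGroup.iff_card.1 hP
  have hn := two_mul_lt h htk hkn
  exact card_le hp (Nat.mod_lt _ hp.pos) (by omega) he
    ((first_case h hp htk hkn hkp hpt).2 P hP hPB)

end Pool.Agent.V7H65.SA
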