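import Pool.Agent.V7H65.SD.Part

/-!
# Orbits of a permutation of prime order
-/

set_option autoImplicit false
set_option linter.unusedSectionVars false

namespace Pool.Agent.V7H65.SA

open Pool.Agent.V7H65.SD

variable {V : Type} [Finite V] {σ : Equiv.Perm V} {p : ℕ}

/-- The orbit of `x`. -/
def orb (σ : Equiv.Perm V) (p : ℕ) (x : V) : Set V := (fun i : ℕ => (σ ^ i) x) '' Set.Iio p

/-- The fixed points. -/
def fixd (σ : Equiv.Perm V) : Set V := {x | σ x = x}

/-- The points that are moved. -/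
def moved (σ : Equiv.Perm V) : Set V := {x | σ x ≠ x}

theorem fixd_add_moved (σ : Equiv.Perm V) : (fixd σ).ncard + (moved σ).ncard = Nat.card V := by
  rw [← Set.ncard_add_ncard_compl (fixd σ)]
  rfl

theorem pow_mod (hσ : σ ^ p = 1) (i : ℕ) (x : V) : (σ ^ i) x = (σ ^ (i % p)) x := by
  conv_lhs => rw [← Nat.div_add_mod i p, pow_add, pow_mul, hσ, one_pow, one_mul]

theorem pow_mem_orb (hσ : σ ^ p = 1) (hp : 0 < p) (i : ℕ) (x : V) : (σ ^ i) x ∈ orb σ p x :=
  ⟨i % p, Nat.mod_lt i hp, (pow_mod hσ i x).symm⟩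

theorem self_mem_orb (hp : 0 < p) (x : V) : x ∈ orb σ p x := ⟨0, hp, by simp⟩

theorem orb_closed (hσ : σ ^ p = 1) (hp : 0 < p) {x z : V} (hz : z ∈ orb σ p x) :
    σ z ∈ orb σ p x := by
  obtain ⟨i, -, rfl⟩ := hz
  have := pow_mem_orb hσ hp (i + 1) x
  rwa [pow_succ', Equiv.Perm.mul_apply] at this

theorem pow_mem_of_closed {B : Set V} (hB : ∀ z ∈ B, σ z ∈ B) {x : V} (hx : x ∈ B) (i : ℕ) :
    (σ ^ i) x ∈ B := by
  induction i with
  | zero => simpa using hx
  | succ i ih =>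
    rw [pow_succ', Equiv.Perm.mul_apply]
    exact hB _ ih

theorem orb_sub_of_closed {B : Set V} (hB : ∀ z ∈ B, σ z ∈ B) {x : V} (hx : x ∈ B) :
    orb σ p x ⊆ B := by
  rintro _ ⟨i, -, rfl⟩
  exact pow_mem_of_closed hB hx i

theorem orb_eq (hσ : σ ^ p = 1) (hp : 0 < p) {x y : V} (hy : y ∈ orb σ p x) :
    orb σ p y = orb σ p x := by
  apply Set.Subset.antisymm
  · exact orb_sub_of_closed (fun z hz => orb_closed hσ hp hz) hy
  · refine orb_sub_of_closed (fun z hz => orb_closed hσ hp hz) ?_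
    obtain ⟨i, hi, rfl⟩ := hy
    have h1 := pow_mem_orb hσ hp (p - i) ((σ ^ i) x)
    rw [← Equiv.Perm.mul_apply, ← pow_add, Nat.sub_add_cancel (le_of_lt hi), hσ] at h1
    exact h1

theorem moved_closed {x : V} (hx : x ∈ moved σ) : σ x ∈ moved σ := by
  intro h
  exact hx (σ.injective h)

theorem orb_sub_moved {x : V} (hx : x ∈ moved σ) : orb σ p x ⊆ moved σ :=
  orb_sub_of_closed (fun _ hz => moved_closed hz) hx

theorem orb_card (hσ : σ ^ p = 1) (hp : p.Prime) {x : V} (hx : x ∈ moved σ) :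
    (orb σ p x).ncard = p := by
  have := Fact.mk hp
  have h1 : Function.minimalPeriod σ x = p := by
    refine Function.minimalPeriod_eq_prime ?_ hx
    show (σ)^[p] x = x
    rw [Equiv.Perm.iterate_eq_pow, hσ]
    rfl
  unfold orb
  rw [Set.InjOn.ncard_image, ← Finset.coe_Iio, Set.ncard_coe_finset, Nat.card_Iio]
  intro i hi j hj hij
  have h2 := Function.iterate_injOn_Iio_minimalPeriod (f := σ) (x := x)
  rw [h1] at h2
  refine h2 hi hj ?_
  show (σ)^[i] x = (σ)^[j] x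
  rw [Equiv.Perm.iterate_eq_pow, Equiv.Perm.iterate_eq_pow]
  exact hij

/-- The size of a closed set of moved points. -/
theorem dvd_card_closed (hσ : σ ^ p = 1) (hp : p.Prime) {B : Set V} (hB : ∀ z ∈ B, σ z ∈ B)
    (hBm : B ⊆ moved σ) : p ∣ B.ncard := by
  refine dvd_of_classes (𝓒 := {C | ∃ x ∈ B, C = orb σ p x}) ?_ ?_ ?_ ?_
  · rintro _ ⟨x, hx, rfl⟩
    exact orb_sub_of_closed hB hx
  · rintro _ ⟨x, hx, rfl⟩
    exact orb_card hσ hp (hBm hx)
  · intro x hx
    exact ⟨orb σ p x, ⟨x, hx, rfl⟩, self_mem_orb hp.pos x⟩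
  · rintro _ ⟨x, hx, rfl⟩ _ ⟨y, hy, rfl⟩ z hz hz'
    rw [← orb_eq hσ hp.pos hz, ← orb_eq hσ hp.pos hz']

/-- Closed sets of moved points of given size. -/
theorem exists_closed (hσ : σ ^ p = 1) (hp : p.Prime) (a : ℕ) (ha : p * a ≤ (moved σ).ncard) :
    ∃ O : Set V, O.ncard = p * a ∧ (∀ z ∈ O, σ z ∈ O) ∧ O ⊆ moved σ := by
  induction a with
  | zero => exact ⟨∅, by simp, by simp, by simp⟩
  | succ a ih =>
    have h0 : p * (a + 1) = p * a + p := by ring
    obtain ⟨O, hO, hOc, hOm⟩ := ih (by omega)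
    obtain ⟨x, hx, hxO⟩ : ∃ x ∈ moved σ, x ∉ O := by
      refine Set.exists_mem_notMem_of_ncard_lt_ncard ?_ (Set.toFinite _)
      have := hp.pos
      omega
    refine ⟨O ∪ orb σ p x, ?_, ?_, ?_⟩
    · rw [Set.ncard_union_eq ?_ (Set.toFinite _) (Set.toFinite _), hO, orb_card hσ hp hx, h0]
      rw [Set.disjoint_left]
      intro z hz hz'
      refine hxO ?_
      have h1 := orb_sub_of_closed (p := p) hOc hz
      rw [orb_eq hσ hp.pos hz'] at h1
      exact h1 (self_mem_orb hp.pos x)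
    · rintro z (hz | hz)
      · exact Or.inl (hOc z hz)
      · exact Or.inr (orb_closed hσ hp.pos hz)
    · exact Set.union_subset hOm (orb_sub_moved hx)

end Pool.Agent.V7H65.SA
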