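import Pool.Agent.V7H65.SA.Few

/-!
# The order of a group of prime power order whose elements have few fixed points
-/

set_option autoImplicit false
set_option linter.unusedSectionVars false

namespace Pool.Agent.V7H65.SA

open Pool.Agent.V7H65.SD

theorem dvd_of_classes_dvd {V : Type} [Finite V] {X : Set V} {𝓒 : Set (Set V)} {m : ℕ}
    (h1 : ∀ C ∈ 𝓒, C ⊆ X) (h2 : ∀ C ∈ 𝓒, m ∣ C.ncard) (h3 : ∀ x ∈ X, ∃ C ∈ 𝓒, x ∈ C)
    (h4 : ∀ C ∈ 𝓒, ∀ C' ∈ 𝓒, ∀ x ∈ C, x ∈ C' → C = C') : m ∣ X.ncard := by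
  classical
  have := Fintype.ofFinite V
  have hX : X = ⋃₀ 𝓒 := by
    ext x
    constructor
    · intro hx
      obtain ⟨C, hC, hxC⟩ := h3 x hx
      exact ⟨C, hC, hxC⟩
    · rintro ⟨C, hC, hxC⟩
      exact h1 C hC hxC
  have h5 : X.toFinset = 𝓒.toFinset.biUnion (fun C => C.toFinset) := by
    ext x
    simp [hX]
  rw [Set.ncard_eq_toFinset_card', h5, Finset.card_biUnion]
  · refine Finset.dvd_sum fun C hC => ?_
    rw [← Set.ncard_eq_toFinset_card']
    exact h2 C (Set.mem_toFinset.1 hC)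
  · intro C hC C' hC' hne
    rw [Function.onFun, Finset.disjoint_left]
    intro x hx hx'
    exact hne (h4 C (Set.mem_toFinset.1 hC) C' (Set.mem_toFinset.1 hC') x
      (Set.mem_toFinset.1 hx) (Set.mem_toFinset.1 hx'))

variable {V : Type} [Finite V] {p : ℕ}

/-- The points fixed by the whole group. -/
def fixG (P : Subgroup (Equiv.Perm V)) : Set V := {x | ∀ g ∈ P, g x = x}

/-- The orbit of a point. -/
def orbG (P : Subgroup (Equiv.Perm V)) (x : V) : Set V := {y | ∃ g ∈ P, g x = y}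

/-- The stabiliser of a point, as a group of permutations. -/
def stabG (P : Subgroup (Equiv.Perm V)) (x : V) : Subgroup (Equiv.Perm V) where
  carrier := {g | g ∈ P ∧ g x = x}
  mul_mem' := by
    rintro a b ⟨ha, ha'⟩ ⟨hb, hb'⟩
    exact ⟨P.mul_mem ha hb, by rw [Equiv.Perm.mul_apply, hb', ha']⟩
  one_mem' := ⟨P.one_mem, rfl⟩
  inv_mem' := by
    rintro a ⟨ha, ha'⟩
    exact ⟨P.inv_mem ha, by rw [Equiv.Perm.inv_eq_iff_eq, ha']⟩

theorem stabG_le (P : Subgroup (Equiv.Perm V)) (x : V) : stabG P x ≤ P := fun _ hg => hg.1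

theorem card_stab_mul (P : Subgroup (Equiv.Perm V)) (x : V) :
    (orbG P x).ncard * Nat.card (stabG P x) = Nat.card P := by
  have h1 := Subgroup.index_mul_card (MulAction.stabilizer P x)
  rw [MulAction.index_stabilizer] at h1
  have h2 : orbG P x = MulAction.orbit P x := by
    ext y
    constructor
    · rintro ⟨g, hg, hgx⟩
      exact ⟨⟨g, hg⟩, hgx⟩
    · rintro ⟨⟨g, hg⟩, hgx⟩
      exact ⟨g, hg, hgx⟩
  have h3 : stabG P x = (MulAction.stabilizer P x).map P.subtype := by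
    ext g
    rw [Subgroup.mem_map]
    constructor
    · rintro ⟨hg, hgx⟩
      exact ⟨⟨g, hg⟩, hgx, rfl⟩
    · rintro ⟨⟨g', hg'⟩, hgx, rfl⟩
      exact ⟨hg', hgx⟩
  rw [h2, h3, Subgroup.card_map_of_injective P.subtype_injective]
  exact h1

theorem orbG_eq (P : Subgroup (Equiv.Perm V)) {x y z : V} (h : z ∈ orbG P x)
    (h' : z ∈ orbG P y) : orbG P x = orbG P y := by
  have key : ∀ {a b : V}, z ∈ orbG P a → z ∈ orbG P b → orbG P a ⊆ orbG P b := by
    rintro a b ⟨g, hg, rfl⟩ ⟨g', hg', he⟩ w ⟨u, hu, rfl⟩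
    refine ⟨u * (g⁻¹ * g'), P.mul_mem hu (P.mul_mem (P.inv_mem hg) hg'), ?_⟩
    rw [Equiv.Perm.mul_apply, Equiv.Perm.mul_apply, he]
    simp
  exact Set.Subset.antisymm (key h h') (key h' h)

theorem orbG_compl {P : Subgroup (Equiv.Perm V)} {x : V} (hx : x ∈ (fixG P)ᶜ) :
    orbG P x ⊆ (fixG P)ᶜ := by
  rintro _ ⟨g, hg, rfl⟩ hy
  refine hx fun u hu => ?_
  have h1 := hy (g * u * g⁻¹) (P.mul_mem (P.mul_mem hg hu) (P.inv_mem hg))
  rw [Equiv.Perm.mul_apply, Equiv.Perm.mul_apply] at h1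
  simpa using h1

/-- The general bound. -/
theorem card_dvd_prod (hp : p.Prime) {F : ℕ} (N : ℕ) :
    ∀ P : Subgroup (Equiv.Perm V), Nat.card P = N → IsPGroup p P →
    (∀ σ ∈ P, σ ≠ 1 → σ ^ p = 1 → (fixd σ).ncard ≤ F) → ∀ s ≤ (fixG P).ncard,
    Nat.card P ∣ ∏ i ∈ (Finset.Ico s (F + 1)).filter (fun i => i % p = Nat.card V % p),
      (Nat.card V - i) := by
  classical
  have := Fact.mk hp
  induction N using Nat.strong_induction_on with
  | _ N ih =>
    intro P hPN hP hF s hs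
    obtain ⟨m, hm⟩ := IsPGroup.iff_card.1 hP
    by_cases hm0 : m = 0
    · rw [hm, hm0, pow_zero]
      exact one_dvd _
    -- an element of order `p`
    obtain ⟨σ, hσ⟩ := exists_prime_orderOf_dvd_card' (G := P) p (by
      rw [hm]
      exact dvd_pow_self p hm0)
    have hσ1 : (σ : Equiv.Perm V) ≠ 1 := by
      intro h1
      have h2 : σ = 1 := Subtype.ext h1
      rw [h2, orderOf_one] at hσ
      exact hp.one_lt.ne hσ
    have hσp : (σ : Equiv.Perm V) ^ p = 1 := by
      rw [← hσ, ← Subgroup.coe_pow, pow_orderOf_eq_one]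
      rfl
    have h1 : (fixG P).ncard ≤ F := by
      refine le_trans (Set.ncard_le_ncard (fun x hx => ?_) (Set.toFinite _))
        (hF σ σ.2 hσ1 hσp)
      exact hx σ σ.2
    -- a shortest orbit
    have hne : ((fixG P)ᶜ).Nonempty := by
      obtain ⟨x, hx⟩ : ∃ x, (σ : Equiv.Perm V) x ≠ x := by
        by_contra hc
        push Not at hc
        exact hσ1 (Equiv.ext hc)
      exact ⟨x, fun h2 => hx (h2 σ σ.2)⟩
    obtain ⟨x, hx, hmin⟩ := Set.exists_min_image _ (fun x => (orbG P x).ncard)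
      (Set.toFinite ((fixG P)ᶜ)) hne
    have hpow : ∀ y, ∃ j, (orbG P y).ncard = p ^ j := by
      intro y
      have h2 : (orbG P y).ncard ∣ p ^ m := by
        rw [← hm, ← card_stab_mul P y]
        exact dvd_mul_right _ _
      obtain ⟨j, -, hj⟩ := (Nat.dvd_prime_pow hp).1 h2
      exact ⟨j, hj⟩
    obtain ⟨j, hj⟩ := hpow x
    have hself : ∀ y, y ∈ orbG P y := fun y => ⟨1, P.one_mem, rfl⟩
    have hj0 : j ≠ 0 := by
      rintro rfl
      rw [pow_zero, Set.ncard_eq_one] at hj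
      obtain ⟨z, hz⟩ := hj
      refine hx fun g hg => ?_
      have h2 : g x ∈ orbG P x := ⟨g, hg, rfl⟩
      have h3 := hself x
      rw [hz] at h2 h3
      rw [Set.mem_singleton_iff] at h2 h3
      rw [h2, h3]
    have hdvd : p ^ j ∣ Nat.card V - (fixG P).ncard := by
      have h2 : ((fixG P)ᶜ).ncard = Nat.card V - (fixG P).ncard := Set.ncard_compl _
      rw [← h2]
      refine dvd_of_classes_dvd (𝓒 := {C | ∃ y ∈ (fixG P)ᶜ, C = orbG P y}) ?_ ?_ ?_ ?_
      · rintro _ ⟨y, hy, rfl⟩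
        exact orbG_compl hy
      · rintro _ ⟨y, hy, rfl⟩
        obtain ⟨i, hi⟩ := hpow y
        have h3 := hmin y hy
        simp only [hj, hi] at h3
        rw [hi]
        exact pow_dvd_pow p ((Nat.pow_le_pow_iff_right hp.one_lt).1 h3)
      · intro y hy
        exact ⟨orbG P y, ⟨y, hy, rfl⟩, hself y⟩
      · rintro _ ⟨y, -, rfl⟩ _ ⟨y', -, rfl⟩ z hz hz'
        exact orbG_eq P hz hz'
    have hle : (fixG P).ncard ≤ Nat.card V := by
      rw [← Set.ncard_univ]
      exact Set.ncard_le_ncard (Set.subset_univ _) (Set.toFinite _)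
    have hmod : (fixG P).ncard % p = Nat.card V % p := by
      have h2 : p ∣ Nat.card V - (fixG P).ncard := (dvd_pow_self p hj0).trans hdvd
      exact (Nat.modEq_iff_dvd' hle).2 h2
    -- the stabiliser
    have hsub : (fixG P).ncard + 1 ≤ (fixG (stabG P x)).ncard := by
      rw [← Set.ncard_insert_of_notMem hx]
      refine Set.ncard_le_ncard ?_ (Set.toFinite _)
      rintro y (rfl | hy)
      · exact fun g hg => hg.2
      · exact fun g hg => hy g hg.1
    have hcs := card_stab_mul P x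
    rw [hj] at hcs
    have hlt : Nat.card (stabG P x) < N := by
      rw [← hPN, ← hcs]
      have h2 : 1 < p ^ j := Nat.one_lt_pow hj0 hp.one_lt
      have h3 : 0 < Nat.card (stabG P x) := Nat.card_pos
      nlinarith
    have hPx : IsPGroup p (stabG P x) := hP.to_le (stabG_le P x)
    have h2 := ih _ hlt (stabG P x) rfl hPx (fun τ hτ => hF τ hτ.1) _ hsub
    rw [← hcs]
    refine (mul_dvd_mul hdvd h2).trans ?_
    have h3 : (Finset.Ico (fixG P).ncard (F + 1)).filter (fun i => i % p = Nat.card V % p) =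
        insert (fixG P).ncard ((Finset.Ico ((fixG P).ncard + 1) (F + 1)).filter
          (fun i => i % p = Nat.card V % p)) := by
      ext i
      simp only [Finset.mem_filter, Finset.mem_Ico, Finset.mem_insert]
      constructor
      · rintro ⟨⟨h4, h5⟩, h6⟩
        by_cases h7 : i = (fixG P).ncard
        · exact Or.inl h7
        · exact Or.inr ⟨⟨by omega, h5⟩, h6⟩
      · rintro (h4 | ⟨⟨h4, h5⟩, h6⟩)
        · rw [h4]
          exact ⟨⟨le_rfl, by omega⟩, hmod⟩
        · exact ⟨⟨by omega, h5⟩, h6⟩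
    have h4 : (Nat.card V - (fixG P).ncard) *
        ∏ i ∈ (Finset.Ico ((fixG P).ncard + 1) (F + 1)).filter
          (fun i => i % p = Nat.card V % p), (Nat.card V - i) =
        ∏ i ∈ (Finset.Ico (fixG P).ncard (F + 1)).filter (fun i => i % p = Nat.card V % p),
          (Nat.card V - i) := by
      rw [h3, Finset.prod_insert]
      simp
    rw [h4]
    refine Finset.prod_dvd_prod_of_subset _ _ _ ?_
    intro i
    simp only [Finset.mem_filter, Finset.mem_Ico]
    rintro ⟨⟨h5, h6⟩, h7⟩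
    exact ⟨⟨by omega, h6⟩, h7⟩

end Pool.Agent.V7H65.SA
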