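import Pool.Agent.V7H65.SA.Main

/-!
# Involutions with few fixed points: a congruence for the number of points
-/

set_option autoImplicit false
set_option linter.unusedSectionVars false

namespace Pool.Agent.V7H65.SA

open Pool.Agent.V7H65.SD

variable {V : Type} [Finite V] {σ : Equiv.Perm V} {t k : ℕ} {𝓑 : Set (Set V)}

/-- The situation: `C` is a closed set of `t - 2` points which contains all fixed points but `z`. -/
structure Sit (t k : ℕ) (𝓑 : Set (Set V)) (σ : Equiv.Perm V) (C : Set V) (z : V) : Prop where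
  st : IsSteiner t k 𝓑
  aut : ∀ B ∈ 𝓑, σ '' B ∈ 𝓑
  inv : ∀ x, σ (σ x) = x
  card : C.ncard + 2 = t
  closed : ∀ x ∈ C, σ x ∈ C
  zC : z ∉ C
  zfix : σ z = z
  fixC : ∀ x, σ x = x → x ∈ C ∨ x = z
  odd : Odd (k - t)
  lt : t < k

/-- The other points. -/
def MM (C : Set V) (z : V) : Set V := {x | x ∉ C ∧ x ≠ z}

variable {C : Set V} {z : V}

theorem Sit.sq (s : Sit t k 𝓑 σ C z) : σ ^ 2 = 1 := by
  ext x
  rw [pow_two, Equiv.Perm.mul_apply, s.inv]
  rfl

theorem Sit.closed' (s : Sit t k 𝓑 σ C z) {x : V} (h : σ x ∈ C) : x ∈ C := by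
  have := s.closed _ h
  rwa [s.inv] at this

theorem Sit.MM_closed (s : Sit t k 𝓑 σ C z) {x : V} (hx : x ∈ MM C z) : σ x ∈ MM C z := by
  refine ⟨fun h => hx.1 (s.closed' h), fun h => hx.2 ?_⟩
  rw [← s.zfix] at h
  exact σ.injective h

theorem Sit.MM_moved (s : Sit t k 𝓑 σ C z) {x : V} (hx : x ∈ MM C z) : σ x ≠ x := by
  intro h
  rcases s.fixC x h with h1 | h1
  · exact hx.1 h1
  · exact hx.2 h1

theorem Sit.ncard_MM (s : Sit t k 𝓑 σ C z) : (MM C z).ncard = Nat.card V - (t - 1) := by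
  have h1 : MM C z = (insert z C)ᶜ := by
    ext x
    simp [MM, and_comm]
  rw [h1, Set.ncard_compl, Set.ncard_insert_of_notMem s.zC]
  have := s.card
  congr 1
  omega

/-- Two points outside `C` and `C` determine the block. -/
theorem Sit.eq_of (s : Sit t k 𝓑 σ C z) {B B' : Set V} (hB : B ∈ 𝓑) (hB' : B' ∈ 𝓑)
    (hC : C ⊆ B) (hC' : C ⊆ B') {x y : V} (hx : x ∉ C) (hy : y ∉ C) (hxy : x ≠ y) (h1 : x ∈ B)
    (h2 : y ∈ B) (h3 : x ∈ B') (h4 : y ∈ B') : B = B' := by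
  refine s.st.eq_of hB hB' (T := insert x (insert y C)) ?_ ?_ ?_
  · exact Set.insert_subset h1 (Set.insert_subset h2 hC)
  · exact Set.insert_subset h3 (Set.insert_subset h4 hC')
  · have := s.card
    rw [Set.ncard_insert_of_notMem, Set.ncard_insert_of_notMem hy]
    · omega
    · rintro (h | h)
      · exact hxy h
      · exact hx h

theorem Sit.exists_block (s : Sit t k 𝓑 σ C z) {x y : V} (hx : x ∉ C) (hy : y ∉ C)
    (hxy : x ≠ y) : ∃ B ∈ 𝓑, C ⊆ B ∧ x ∈ B ∧ y ∈ B := by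
  obtain ⟨B, ⟨hB, hT⟩, -⟩ := s.st.2 (insert x (insert y C)) (by
    have := s.card
    rw [Set.ncard_insert_of_notMem, Set.ncard_insert_of_notMem hy]
    · omega
    · rintro (h | h)
      · exact hxy h
      · exact hx h)
  refine ⟨B, hB, ?_, hT (Set.mem_insert x _), hT (Set.mem_insert_of_mem _ (Set.mem_insert y _))⟩
  exact ((Set.subset_insert y C).trans (Set.subset_insert x _)).trans hT

theorem image_closed {B : Set V} (h : σ '' B = B) :
    ∀ x ∈ B, σ x ∈ B := fun x hx => h ▸ ⟨x, hx, rfl⟩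

theorem Sit.sub_image (s : Sit t k 𝓑 σ C z) {B : Set V} (hC : C ⊆ B) : C ⊆ σ '' B := by
  intro x hx
  exact ⟨σ x, hC (s.closed x hx), s.inv x⟩

theorem Sit.mem_image (s : Sit t k 𝓑 σ C z) {B : Set V} {x : V} : x ∈ σ '' B ↔ σ x ∈ B := by
  constructor
  · rintro ⟨y, hy, rfl⟩
    rwa [s.inv]
  · intro h
    exact ⟨σ x, h, s.inv x⟩

theorem Sit.image_image (s : Sit t k 𝓑 σ C z) (B : Set V) : σ '' (σ '' B) = B := by
  ext x
  rw [s.mem_image, s.mem_image, s.inv]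

/-- A block through a pair `x, σ x` is closed. -/
theorem Sit.closed_of_pair (s : Sit t k 𝓑 σ C z) {B : Set V} (hB : B ∈ 𝓑) (hC : C ⊆ B) {x : V}
    (hx : x ∈ MM C z) (h1 : x ∈ B) (h2 : σ x ∈ B) : σ '' B = B := by
  refine s.eq_of (s.aut B hB) hB (s.sub_image hC) hC hx.1 (s.MM_closed hx).1
    (s.MM_moved hx).symm ?_ ?_ h1 h2
  · rw [s.mem_image]
    exact h2
  · rw [s.mem_image, s.inv]
    exact h1

theorem Sit.ncard_sdiff (s : Sit t k 𝓑 σ C z) {B : Set V} (hB : B ∈ 𝓑) (hC : C ⊆ B) :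
    (B \ C).ncard = k - t + 2 := by
  rw [Set.ncard_sdiff hC, s.st.1 B hB]
  have := s.card
  have := s.lt
  omega

/-- A closed block contains `z`. -/
theorem Sit.z_mem (s : Sit t k 𝓑 σ C z) {B : Set V} (hB : B ∈ 𝓑) (hC : C ⊆ B)
    (hcl : σ '' B = B) : z ∈ B := by
  by_contra hz
  have h1 : 2 ∣ (B \ C).ncard := by
    refine dvd_card_closed s.sq Nat.prime_two ?_ ?_
    · rintro x ⟨hx, hx'⟩
      exact ⟨image_closed hcl x hx, fun h => hx' (s.closed' h)⟩
    · rintro x ⟨hx, hx'⟩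
      exact s.MM_moved ⟨hx', fun h => hz (h ▸ hx)⟩
  rw [s.ncard_sdiff hB hC] at h1
  have := s.odd
  rw [Nat.odd_iff] at this
  omega

/-- A block through `z` is closed. -/
theorem Sit.closed_of_z (s : Sit t k 𝓑 σ C z) {B : Set V} (hB : B ∈ 𝓑) (hC : C ⊆ B)
    (hz : z ∈ B) : σ '' B = B := by
  obtain ⟨x, hxB, hx⟩ : ∃ x ∈ B, x ∉ insert z C := by
    refine Set.exists_mem_notMem_of_ncard_lt_ncard ?_ (Set.toFinite _)
    rw [Set.ncard_insert_of_notMem s.zC, s.st.1 B hB]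
    have := s.card
    have := s.lt
    omega
  have hxM : x ∈ MM C z := ⟨fun h => hx (Set.mem_insert_of_mem _ h), fun h => hx (Or.inl h)⟩
  obtain ⟨B', hB', hC', h1, h2⟩ := s.exists_block hxM.1 (s.MM_closed hxM).1
    (s.MM_moved hxM).symm
  have h3 := s.closed_of_pair hB' hC' hxM h1 h2
  have h4 := s.z_mem hB' hC' h3
  rw [s.eq_of hB hB' hC hC' hxM.1 s.zC hxM.2 hxB hz h1 h4]
  exact h3

section count

variable (e : V → ℕ)

/-- One point of each orbit. -/
def RR (σ : Equiv.Perm V) (C : Set V) (z : V) : Set V := {x | x ∈ MM C z ∧ e x < e (σ x)}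

/-- The other points of the orbits. -/
def RR' (σ : Equiv.Perm V) (C : Set V) (z : V) : Set V := {x | x ∈ MM C z ∧ e (σ x) < e x}

variable {e}

theorem Sit.swap (s : Sit t k 𝓑 σ C z) (e : V → ℕ) {x : V} : σ x ∈ RR' e σ C z ↔
    x ∈ RR e σ C z := by
  constructor
  · rintro ⟨h1, h2⟩
    have h3 := s.MM_closed h1
    rw [s.inv] at h2 h3
    exact ⟨h3, h2⟩
  · rintro ⟨h1, h2⟩
    refine ⟨s.MM_closed h1, ?_⟩
    rw [s.inv]
    exact h2

theorem Sit.swap' (s : Sit t k 𝓑 σ C z) (e : V → ℕ) {x : V} : σ x ∈ RR e σ C z ↔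
    x ∈ RR' e σ C z := by
  rw [← s.swap e, s.inv]

theorem disj_RR (e : V → ℕ) {x : V} (h : x ∈ RR e σ C z) (h' : x ∈ RR' e σ C z) : False := by
  have := h.2
  have := h'.2
  omega

theorem Sit.union_RR (s : Sit t k 𝓑 σ C z) (he : Function.Injective e) {x : V}
    (hx : x ∈ MM C z) : x ∈ RR e σ C z ∨ x ∈ RR' e σ C z := by
  have h1 : e x ≠ e (σ x) := fun h => s.MM_moved hx (he h).symm
  rcases Nat.lt_or_gt_of_ne h1 with h2 | h2
  · exact Or.inl ⟨hx, h2⟩
  · exact Or.inr ⟨hx, h2⟩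

/-- The numbers of points in the two halves of a block and of its image. -/
theorem Sit.ncard_image_inter (s : Sit t k 𝓑 σ C z) (e : V → ℕ) (B : Set V) :
    (σ '' B ∩ RR e σ C z).ncard = (B ∩ RR' e σ C z).ncard := by
  have h1 : σ '' B ∩ RR e σ C z = σ '' (B ∩ RR' e σ C z) := by
    ext x
    rw [s.mem_image, Set.mem_inter_iff, Set.mem_inter_iff, s.mem_image, ← s.swap e]
  rw [h1, Set.ncard_image_of_injective _ σ.injective]

theorem Sit.ncard_image_inter' (s : Sit t k 𝓑 σ C z) (e : V → ℕ) (B : Set V) :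
    (σ '' B ∩ RR' e σ C z).ncard = (B ∩ RR e σ C z).ncard := by
  have h1 : σ '' B ∩ RR' e σ C z = σ '' (B ∩ RR e σ C z) := by
    ext x
    rw [s.mem_image, Set.mem_inter_iff, Set.mem_inter_iff, s.mem_image, s.swap' e]
  rw [h1, Set.ncard_image_of_injective _ σ.injective]

theorem Sit.ncard_inter_MM (s : Sit t k 𝓑 σ C z) (he : Function.Injective e) (B : Set V) :
    (B ∩ MM C z).ncard = (B ∩ RR e σ C z).ncard + (B ∩ RR' e σ C z).ncard := by
  rw [← Set.ncard_union_eq ?_ (Set.toFinite _) (Set.toFinite _)]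
  · congr 1
    ext x
    constructor
    · rintro ⟨h1, h2⟩
      rcases s.union_RR he h2 with h3 | h3
      · exact Or.inl ⟨h1, h3⟩
      · exact Or.inr ⟨h1, h3⟩
    · rintro (⟨h1, h2⟩ | ⟨h1, h2⟩)
      · exact ⟨h1, h2.1⟩
      · exact ⟨h1, h2.1⟩
  · rw [Set.disjoint_left]
    rintro x ⟨-, h1⟩ ⟨-, h2⟩
    exact disj_RR e h1 h2

theorem Sit.ncard_MM_eq (s : Sit t k 𝓑 σ C z) (he : Function.Injective e) :
    (MM C z).ncard = 2 * (RR e σ C z).ncard ∧ (RR' e σ C z).ncard = (RR e σ C z).ncard := by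
  have h1 := s.ncard_inter_MM he Set.univ
  have h2 := s.ncard_image_inter' e Set.univ
  rw [Set.image_univ, σ.surjective.range_eq] at h2
  rw [Set.univ_inter, Set.univ_inter] at h2
  rw [Set.univ_inter, Set.univ_inter, Set.univ_inter] at h1
  omega

/-- The number of points of a closed block in each half. -/
theorem Sit.ncard_closed (s : Sit t k 𝓑 σ C z) (he : Function.Injective e) {B : Set V}
    (hB : B ∈ 𝓑) (hC : C ⊆ B) (hcl : σ '' B = B) :
    2 * (B ∩ RR' e σ C z).ncard = k - t + 1 := by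
  have h1 := s.ncard_inter_MM he B
  have h2 := s.ncard_image_inter e B
  rw [hcl] at h2
  have h3 : B ∩ MM C z = (B \ C) \ {z} := by
    ext x
    simp [MM, and_assoc]
  have h4 := s.z_mem hB hC hcl
  have h5 : z ∈ B \ C := ⟨h4, s.zC⟩
  rw [h3, Set.ncard_sdiff_singleton_of_mem h5, s.ncard_sdiff hB hC] at h1
  omega

theorem Sit.ncard_open (s : Sit t k 𝓑 σ C z) (he : Function.Injective e) {B : Set V}
    (hB : B ∈ 𝓑) (hC : C ⊆ B) (hcl : σ '' B ≠ B) :
    (B ∩ RR e σ C z).ncard + (B ∩ RR' e σ C z).ncard = k - t + 2 := by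
  have h1 := s.ncard_inter_MM he B
  have h3 : B ∩ MM C z = B \ C := by
    ext x
    constructor
    · rintro ⟨h4, h5⟩
      exact ⟨h4, h5.1⟩
    · rintro ⟨h4, h5⟩
      exact ⟨h4, h5, fun h6 => hcl (s.closed_of_z hB hC (h6 ▸ h4))⟩
  rw [h3, s.ncard_sdiff hB hC] at h1
  exact h1.symm

end count

theorem ncard_prod_set {S T : Set V} : ({q : V × V | q.1 ∈ S ∧ q.2 ∈ T}).ncard =
    S.ncard * T.ncard := by
  rw [← Set.ncard_prod]
  rfl

/-- The congruence. -/
theorem Sit.sixteen_dvd (s : Sit t k 𝓑 σ C z) (hkn : k ≤ Nat.card V) :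
    16 ∣ (Nat.card V - (t - 1)) * (Nat.card V - k) := by
  classical
  have := Fintype.ofFinite V
  set e : V → ℕ := fun x => (Finite.equivFin V x : ℕ) with he'
  have he : Function.Injective e := by
    intro x y hxy
    exact (Finite.equivFin V).injective (Fin.ext hxy)
  set R := RR e σ C z with hR
  set R' := RR' e σ C z with hR'
  obtain ⟨hm1, hm2⟩ := s.ncard_MM_eq he
  rw [← hR, ← hR'] at hm2
  rw [← hR] at hm1
  have hRM : ∀ x ∈ R, x ∈ MM C z := fun x hx => hx.1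
  have hRM' : ∀ x ∈ R', x ∈ MM C z := fun x hx => hx.1
  have hne : ∀ x ∈ R, ∀ y ∈ R', x ≠ y := fun x hx y hy h => disj_RR e hx (h ▸ hy)
  have hex : ∀ x ∈ R, ∃ B ∈ 𝓑, C ⊆ B ∧ x ∈ B ∧ σ x ∈ B := fun x hx =>
    s.exists_block (hRM x hx).1 (s.MM_closed (hRM x hx)).1 (s.MM_moved (hRM x hx)).symm
  choose! b hb1 hb2 hb3 hb4 using hex
  have hbcl : ∀ x ∈ R, σ '' b x = b x := fun x hx =>
    s.closed_of_pair (hb1 x hx) (hb2 x hx) (hRM x hx) (hb3 x hx) (hb4 x hx)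
  set P : Set (V × V) := {q | q.1 ∈ R ∧ q.2 ∈ R' ∧ q.2 ∉ b q.1} with hP
  set g : ℕ := (k - t + 1) / 2 with hg
  have hodd := s.odd
  rw [Nat.odd_iff] at hodd
  have hPcard : P.ncard = R.ncard * (R.ncard - g) := by
    rw [Set.ncard_eq_toFinset_card', Finset.card_eq_sum_card_fiberwise (f := Prod.fst)
      (t := R.toFinset)]
    · rw [Finset.sum_congr rfl (g := fun _ => R.ncard - g)]
      · rw [Finset.sum_const, smul_eq_mul, ← Set.ncard_eq_toFinset_card']
      · intro x hx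
        rw [Set.mem_toFinset] at hx
        have h1 : (P.toFinset.filter fun q => q.1 = x) =
            ((R' \ b x).toFinset).map ⟨fun y => (x, y), fun y y' h => (Prod.mk.inj h).2⟩ := by
          ext ⟨u, w⟩
          simp only [Finset.mem_filter, Set.mem_toFinset, Finset.mem_map, hP,
            Set.mem_ofPred_eq, Set.mem_sdiff]
          constructor
          · rintro ⟨⟨h2, h3, h4⟩, rfl⟩
            exact ⟨w, ⟨h3, h4⟩, rfl⟩
          · rintro ⟨y, ⟨h3, h4⟩, h5⟩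
            obtain ⟨rfl, rfl⟩ := Prod.mk.inj h5
            exact ⟨⟨hx, h3, h4⟩, rfl⟩
        rw [h1, Finset.card_map, ← Set.ncard_eq_toFinset_card']
        have h2 := s.ncard_closed he (hb1 x hx) (hb2 x hx) (hbcl x hx)
        have h3 := Set.ncard_inter_add_ncard_sdiff_eq_ncard R' (b x)
        rw [Set.inter_comm] at h3
        rw [hm2] at h3
        rw [← hR'] at h2
        omega
    · intro q hq
      have h1 : q ∈ P := by simpa using hq
      simpa using h1.1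
  have hfour : 4 ∣ P.ncard := by
    refine dvd_of_classes_dvd (𝓒 := {D | ∃ B ∈ 𝓑, C ⊆ B ∧ σ '' B ≠ B ∧
      D = {q | q.1 ∈ B ∩ R ∧ q.2 ∈ B ∩ R'} ∪ {q | q.1 ∈ σ '' B ∩ R ∧ q.2 ∈ σ '' B ∩ R'}})
      ?_ ?_ ?_ ?_
    · rintro _ ⟨B, hB, hC, hcl, rfl⟩ q (⟨⟨h1, h2⟩, h3, h4⟩ | ⟨⟨h1, h2⟩, h3, h4⟩)
      · refine ⟨h2, h4, fun h5 => ?_⟩
        have h6 := s.eq_of hB (hb1 _ h2) hC (hb2 _ h2) (hRM _ h2).1 (hRM' _ h4).1
          (hne _ h2 _ h4) h1 h3 (hb3 _ h2) h5
        exact hcl (h6 ▸ hbcl _ h2)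
      · refine ⟨h2, h4, fun h5 => ?_⟩
        have h6 := s.eq_of (s.aut B hB) (hb1 _ h2) (s.sub_image hC) (hb2 _ h2) (hRM _ h2).1
          (hRM' _ h4).1 (hne _ h2 _ h4) h1 h3 (hb3 _ h2) h5
        have h7 := hbcl _ h2
        rw [← h6, s.image_image] at h7
        exact hcl h7.symm
    · rintro _ ⟨B, hB, hC, hcl, rfl⟩
      rw [Set.ncard_union_eq ?_ (Set.toFinite _) (Set.toFinite _), ncard_prod_set,
        ncard_prod_set, s.ncard_image_inter e, s.ncard_image_inter' e]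
      · have h1 := s.ncard_open he hB hC hcl
        rw [mul_comm (B ∩ R').ncard, ← two_mul]
        have h2 : 2 ∣ (B ∩ R).ncard * (B ∩ R').ncard := by
          by_contra h3
          rw [Nat.prime_two.dvd_mul] at h3
          rw [← hR, ← hR'] at h1
          omega
        exact mul_dvd_mul (dvd_refl 2) h2
      · rw [Set.disjoint_left]
        rintro q ⟨⟨h1, h2⟩, h3, h4⟩ ⟨⟨h5, -⟩, h6, -⟩
        exact hcl (s.eq_of (s.aut B hB) hB (s.sub_image hC) hC (hRM _ h2).1 (hRM' _ h4).1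
          (hne _ h2 _ h4) h5 h6 h1 h3)
    · rintro q ⟨h1, h2, h3⟩
      obtain ⟨B, hB, hC, h4, h5⟩ := s.exists_block (hRM _ h1).1 (hRM' _ h2).1 (hne _ h1 _ h2)
      refine ⟨_, ⟨B, hB, hC, ?_, rfl⟩, Or.inl ⟨⟨h4, h1⟩, h5, h2⟩⟩
      intro hcl
      have h6 := image_closed hcl _ h4
      have h7 := s.eq_of hB (hb1 _ h1) hC (hb2 _ h1) (hRM _ h1).1 (s.MM_closed (hRM _ h1)).1
        (s.MM_moved (hRM _ h1)).symm h4 h6 (hb3 _ h1) (hb4 _ h1)
      exact h3 (h7 ▸ h5)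
    · rintro _ ⟨B, hB, hC, hcl, rfl⟩ _ ⟨B', hB', hC', hcl', rfl⟩ q hq hq'
      have key : ∀ D ∈ 𝓑, C ⊆ D → ∀ D' ∈ 𝓑, C ⊆ D' → q.1 ∈ D ∩ R ∧ q.2 ∈ D ∩ R' →
          q.1 ∈ D' ∩ R ∧ q.2 ∈ D' ∩ R' → D = D' := by
        rintro D hD hCD D' hD' hCD' ⟨⟨h1, h2⟩, h3, h4⟩ ⟨⟨h5, -⟩, h6, -⟩
        exact s.eq_of hD hD' hCD hCD' (hRM _ h2).1 (hRM' _ h4).1 (hne _ h2 _ h4) h1 h3 h5 h6
      have hor : B' = B ∨ B' = σ '' B := by
        rcases hq with h1 | h1 <;> rcases hq' with h2 | h2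
        · exact Or.inl (key B' hB' hC' B hB hC h2 h1)
        · right
          have h3 := key _ (s.aut B' hB') (s.sub_image hC') B hB hC h2 h1
          rw [← h3, s.image_image]
        · exact Or.inr (key B' hB' hC' _ (s.aut B hB) (s.sub_image hC) h2 h1)
        · left
          have h3 := key _ (s.aut B' hB') (s.sub_image hC') _ (s.aut B hB) (s.sub_image hC) h2 h1
          rw [← s.image_image B', h3, s.image_image]
      rcases hor with rfl | rfl
      · rfl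
      · rw [s.image_image, Set.union_comm]
  rw [hPcard] at hfour
  rw [s.ncard_MM] at hm1
  have hlt := s.lt
  have hcd := s.card
  have h1 : Nat.card V - k = 2 * (R.ncard - g) := by omega
  rw [hm1, h1, show 2 * R.ncard * (2 * (R.ncard - g)) = 4 * (R.ncard * (R.ncard - g)) by ring]
  exact mul_dvd_mul (dvd_refl 4) hfour

end Pool.Agent.V7H65.SA
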